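import Mathlib

/-!
Moment argument: reciprocal sums of primes modulo many primes.
-/

set_option autoImplicit false

namespace Pool.Agent.Hhelper87.Cover

open Finset

/-- The integer `D * (∑ 1/x_i - ∑ 1/y_i)` with `D = ∏ x_i * ∏ y_i`. -/
def num {s : ℕ} (x y : Fin s → ℕ) : ℤ :=
  ∑ i, ((((∏ j, x j) * (∏ j, y j)) / x i : ℕ) : ℤ) -
    ∑ i, ((((∏ j, x j) * (∏ j, y j)) / y i : ℕ) : ℤ)

theorem num_cast {s : ℕ} (x y : Fin s → ℕ) (hx : ∀ i, x i ≠ 0) (hy : ∀ i, y i ≠ 0) :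
    (num x y : ℚ) = ((∏ j, x j : ℕ) : ℚ) * ((∏ j, y j : ℕ) : ℚ) *
      (∑ i, (1 : ℚ) / x i - ∑ i, (1 : ℚ) / y i) := by
  unfold num
  rw [← Nat.cast_mul]
  set D : ℕ := (∏ j, x j) * (∏ j, y j) with hD
  simp only [Int.cast_sub, Int.cast_sum, Int.cast_natCast]
  rw [mul_sub, Finset.mul_sum, Finset.mul_sum]
  congr 1
  · refine Finset.sum_congr rfl fun i _ => ?_
    have hdvd : x i ∣ D :=
      Dvd.dvd.mul_right (Finset.dvd_prod_of_mem _ (Finset.mem_univ i)) _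
    have h0 : ((x i : ℕ) : ℚ) ≠ 0 := by exact_mod_cast hx i
    rw [Nat.cast_div hdvd h0]
    ring
  · refine Finset.sum_congr rfl fun i _ => ?_
    have hdvd : y i ∣ D :=
      Dvd.dvd.mul_left (Finset.dvd_prod_of_mem _ (Finset.mem_univ i)) _
    have h0 : ((y i : ℕ) : ℚ) ≠ 0 := by exact_mod_cast hy i
    rw [Nat.cast_div hdvd h0]
    ring

theorem num_ne_zero {s : ℕ} (x y : Fin s → ℕ) (hx : ∀ i, (x i).Prime ∧ s < x i)
    (hy : ∀ i, (y i).Prime ∧ s < y i) (h : ∃ j, ∀ i, x i ≠ y j) : num x y ≠ 0 := by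
  classical
  intro h0
  obtain ⟨j0, hj0⟩ := h
  have hq := num_cast x y (fun i => (hx i).1.ne_zero) (fun i => (hy i).1.ne_zero)
  rw [h0] at hq
  have hX : ((∏ j, x j : ℕ) : ℚ) ≠ 0 := by
    exact_mod_cast Finset.prod_ne_zero_iff.2 (fun i _ => (hx i).1.ne_zero)
  have hY : ((∏ j, y j : ℕ) : ℚ) ≠ 0 := by
    exact_mod_cast Finset.prod_ne_zero_iff.2 (fun i _ => (hy i).1.ne_zero)
  have hsum : ∑ i, (1 : ℚ) / x i - ∑ i, (1 : ℚ) / y i = 0 := by
    have : ((∏ j, x j : ℕ) : ℚ) * ((∏ j, y j : ℕ) : ℚ) *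
      (∑ i, (1 : ℚ) / x i - ∑ i, (1 : ℚ) / y i) = 0 := by
      rw [← hq]; simp
    rcases mul_eq_zero.1 this with h1 | h1
    · exact absurd h1 (mul_ne_zero hX hY)
    · exact h1
  set p := y j0 with hp
  have hpp : p.Prime := (hy j0).1
  have : Fact p.Prime := ⟨hpp⟩
  set e := (Finset.univ.filter (fun j => y j = p)).card with he
  have hepos : 0 < e := Finset.card_pos.2 ⟨j0, by simp [hp]⟩
  have hes : e ≤ s := by
    have := Finset.card_filter_le (Finset.univ : Finset (Fin s)) (fun j => y j = p)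
    simpa using this
  have hsplit : ∑ i, (1 : ℚ) / y i = (e : ℚ) / p +
      ∑ i ∈ Finset.univ.filter (fun j => ¬ y j = p), (1 : ℚ) / y i := by
    rw [← Finset.sum_filter_add_sum_filter_not Finset.univ (fun j => y j = p)]
    congr 1
    rw [Finset.sum_congr rfl (g := fun _ => (1 : ℚ) / p)]
    · rw [Finset.sum_const, nsmul_eq_mul]; ring
    · intro i hi
      rw [Finset.mem_filter] at hi
      rw [hi.2]
  have hnorm1 : ∀ m : ℕ, m.Prime → m ≠ p → padicNorm p ((1 : ℚ) / m) ≤ 1 := by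
    intro m hm hne
    rw [padicNorm.div, padicNorm.one]
    have : padicNorm p (m : ℚ) = 1 := by
      have h2 : ¬ p ∣ m := by
        intro hd
        exact hne ((Nat.prime_dvd_prime_iff_eq hpp hm).1 hd).symm
      exact_mod_cast (padicNorm.nat_eq_one_iff m).2 h2
    rw [this]; norm_num
  have hA : padicNorm p (∑ i, (1 : ℚ) / x i) ≤ 1 := by
    refine padicNorm.sum_le' (fun i _ => hnorm1 _ (hx i).1 (hj0 i)) zero_le_one
  have hB : padicNorm p (∑ i ∈ Finset.univ.filter (fun j => ¬ y j = p), (1 : ℚ) / y i) ≤ 1 := by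
    refine padicNorm.sum_le' (fun i hi => ?_) zero_le_one
    rw [Finset.mem_filter] at hi
    exact hnorm1 _ (hy i).1 hi.2
  have heq : (e : ℚ) / p = ∑ i, (1 : ℚ) / x i -
      ∑ i ∈ Finset.univ.filter (fun j => ¬ y j = p), (1 : ℚ) / y i := by
    rw [hsplit] at hsum; linarith
  have hC : padicNorm p ((e : ℚ) / p) ≤ 1 := by
    rw [heq]
    refine (padicNorm.sub).trans (max_le hA hB)
  have hD : padicNorm p ((e : ℚ) / p) = p := by
    rw [padicNorm.div, padicNorm.padicNorm_p hpp.one_lt]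
    have : padicNorm p (e : ℚ) = 1 := by
      have h2 : ¬ p ∣ e := by
        intro hd
        have := Nat.le_of_dvd hepos hd
        have := (hy j0).2
        omega
      exact_mod_cast (padicNorm.nat_eq_one_iff e).2 h2
    rw [this]; simp
  rw [hD] at hC
  have : (1 : ℚ) < p := by exact_mod_cast hpp.one_lt
  linarith

theorem num_natAbs_le {s : ℕ} (x y : Fin s → ℕ) (B : ℕ) (hx : ∀ i, x i ≤ B) (hy : ∀ i, y i ≤ B) :
    (num x y).natAbs ≤ s * B ^ (2 * s) := by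
  have hD : (∏ j, x j) * (∏ j, y j) ≤ B ^ (2 * s) := by
    have h1 : ∏ j, x j ≤ B ^ s := by
      calc ∏ j, x j ≤ ∏ _j : Fin s, B := Finset.prod_le_prod' (fun i _ => hx i)
        _ = B ^ s := by simp
    have h2 : ∏ j, y j ≤ B ^ s := by
      calc ∏ j, y j ≤ ∏ _j : Fin s, B := Finset.prod_le_prod' (fun i _ => hy i)
        _ = B ^ s := by simp
    calc (∏ j, x j) * (∏ j, y j) ≤ B ^ s * B ^ s := Nat.mul_le_mul h1 h2
      _ = B ^ (2 * s) := by rw [← pow_add]; congr 1; ring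
  have h3 : ∀ z : Fin s → ℕ, ∑ i, (((∏ j, x j) * (∏ j, y j)) / z i) ≤ s * B ^ (2 * s) := by
    intro z
    calc ∑ i, (((∏ j, x j) * (∏ j, y j)) / z i) ≤ ∑ _i : Fin s, B ^ (2 * s) :=
          Finset.sum_le_sum fun i _ => (Nat.div_le_self _ _).trans hD
      _ = s * B ^ (2 * s) := by simp
  have h4 := h3 x
  have h5 := h3 y
  unfold num
  rw [← Nat.cast_sum, ← Nat.cast_sum]
  omega

theorem few_dvd {s Q : ℕ} (hQ : s * 4 ^ s < Q) (P : Finset ℕ)
    (hP : ∀ p ∈ P, p.Prime ∧ Q ≤ p) (x y : Fin s → ℕ)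
    (hx : ∀ i, x i ≤ 2 * Q) (hy : ∀ i, y i ≤ 2 * Q) (h0 : num x y ≠ 0) :
    (P.filter (fun q : ℕ => (q : ℤ) ∣ num x y)).card ≤ 2 * s := by
  by_contra hcon
  push Not at hcon
  set F := P.filter (fun q : ℕ => (q : ℤ) ∣ num x y) with hF
  have hdvd : ∏ q ∈ F, q ∣ (num x y).natAbs := by
    refine Finset.prod_primes_dvd _ (fun q hq => ?_) (fun q hq => ?_)
    · exact (hP q (Finset.mem_filter.1 hq).1).1.prime
    · exact Int.natCast_dvd.1 (Finset.mem_filter.1 hq).2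
  have hle := Nat.le_of_dvd (Int.natAbs_pos.2 h0) hdvd
  have hQpos : 0 < Q := by omega
  have h1 : Q ^ (2 * s + 1) ≤ ∏ q ∈ F, q := by
    calc Q ^ (2 * s + 1) ≤ Q ^ F.card := Nat.pow_le_pow_right hQpos hcon
      _ = ∏ _q ∈ F, Q := by simp
      _ ≤ ∏ q ∈ F, q := Finset.prod_le_prod' fun q hq => (hP q (Finset.mem_filter.1 hq).1).2
  have h2 := num_natAbs_le x y (2 * Q) hx hy
  have h3 : Q ^ (2 * s + 1) ≤ s * (2 * Q) ^ (2 * s) := h1.trans (hle.trans h2)
  have h4 : s * (2 * Q) ^ (2 * s) = (s * 4 ^ s) * Q ^ (2 * s) := by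
    rw [mul_pow, pow_mul 2 2 s]; norm_num; ring
  rw [h4, pow_succ, mul_comm] at h3
  have h5 : Q ≤ s * 4 ^ s := Nat.le_of_mul_le_mul_right h3 (by positivity)
  omega

theorem dvd_num {s : ℕ} (q : ℕ) (hq : q.Prime) (c : ℤ) (hc : ¬ (q : ℤ) ∣ c) (k : ℕ → ℤ)
    (x y : Fin s → ℕ)
    (hx : ∀ i, (q : ℤ) ∣ (x i : ℤ) * k (x i) - c) (hy : ∀ i, (q : ℤ) ∣ (y i : ℤ) * k (y i) - c)
    (hk : ∑ i, k (x i) = ∑ i, k (y i)) : (q : ℤ) ∣ num x y := by
  have hprime : Prime (q : ℤ) := Nat.prime_iff_prime_int.1 hq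
  have hmul : (q : ℤ) ∣ c * num x y := by
    set D : ℕ := (∏ j, x j) * (∏ j, y j) with hD
    have hxd : ∀ i, ((x i : ℕ) : ℤ) * ((D / x i : ℕ) : ℤ) = D := by
      intro i
      have hdvd : x i ∣ D :=
        Dvd.dvd.mul_right (Finset.dvd_prod_of_mem _ (Finset.mem_univ i)) _
      exact_mod_cast Nat.mul_div_cancel' hdvd
    have hyd : ∀ i, ((y i : ℕ) : ℤ) * ((D / y i : ℕ) : ℤ) = D := by
      intro i
      have hdvd : y i ∣ D :=
        Dvd.dvd.mul_left (Finset.dvd_prod_of_mem _ (Finset.mem_univ i)) _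
      exact_mod_cast Nat.mul_div_cancel' hdvd
    have key : c * num x y = -(∑ i, ((x i : ℤ) * k (x i) - c) * ((D / x i : ℕ) : ℤ)) +
        ∑ i, ((y i : ℤ) * k (y i) - c) * ((D / y i : ℕ) : ℤ) := by
      have e1 : ∑ i, ((x i : ℤ) * k (x i) - c) * ((D / x i : ℕ) : ℤ) =
          (D : ℤ) * ∑ i, k (x i) - c * ∑ i, ((D / x i : ℕ) : ℤ) := by
        rw [Finset.mul_sum, Finset.mul_sum, ← Finset.sum_sub_distrib]
        refine Finset.sum_congr rfl fun i _ => ?_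
        rw [← hxd i]; ring
      have e2 : ∑ i, ((y i : ℤ) * k (y i) - c) * ((D / y i : ℕ) : ℤ) =
          (D : ℤ) * ∑ i, k (y i) - c * ∑ i, ((D / y i : ℕ) : ℤ) := by
        rw [Finset.mul_sum, Finset.mul_sum, ← Finset.sum_sub_distrib]
        refine Finset.sum_congr rfl fun i _ => ?_
        rw [← hyd i]; ring
      rw [e1, e2, hk]
      unfold num
      rw [← hD]
      ring
    rw [key]
    refine dvd_add ((Finset.dvd_sum fun i _ => ?_).neg_right) (Finset.dvd_sum fun i _ => ?_)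
    · exact (hx i).mul_right _
    · exact (hy i).mul_right _
  exact (hprime.dvd_or_dvd hmul).resolve_left hc

theorem collisions {ι : Type*} [DecidableEq ι] (T : Finset ι) (f : ι → ℤ) (B : ℕ)
    (hf : ∀ x ∈ T, |f x| ≤ B) :
    T.card ^ 2 ≤ (2 * B + 1) * ((T ×ˢ T).filter (fun z => f z.1 = f z.2)).card := by
  classical
  set V : Finset ℤ := Finset.Icc (-(B : ℤ)) B with hV
  have hVc : V.card = 2 * B + 1 := by
    rw [hV, Int.card_Icc]; omega
  have hmaps : ∀ x ∈ T, f x ∈ V := by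
    intro x hx
    rw [hV, Finset.mem_Icc]
    exact abs_le.1 (hf x hx)
  have h1 : T.card = ∑ v ∈ V, (T.filter (fun x => f x = v)).card :=
    Finset.card_eq_sum_card_fiberwise hmaps
  have h2 : ((T ×ˢ T).filter (fun z => f z.1 = f z.2)).card =
      ∑ v ∈ V, (T.filter (fun x => f x = v)).card ^ 2 := by
    rw [Finset.card_eq_sum_card_fiberwise (f := fun z => f z.1) (t := V)]
    · refine Finset.sum_congr rfl fun v _ => ?_
      rw [sq, ← Finset.card_product]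
      congr 1
      ext z
      simp only [Finset.mem_filter, Finset.mem_product]
      constructor
      · rintro ⟨⟨⟨h3, h4⟩, h5⟩, h6⟩
        exact ⟨⟨h3, h6⟩, h4, h5 ▸ h6⟩
      · rintro ⟨⟨h3, h4⟩, h5, h6⟩
        exact ⟨⟨⟨h3, h5⟩, h4.trans h6.symm⟩, h4⟩
    · intro z hz
      have hz' := Finset.mem_filter.1 (Finset.mem_coe.1 hz)
      exact hmaps _ (Finset.mem_product.1 hz'.1).1
  have h3 : (∑ v ∈ V, ((T.filter (fun x => f x = v)).card : ℤ)) ^ 2 ≤
      V.card * ∑ v ∈ V, ((T.filter (fun x => f x = v)).card : ℤ) ^ 2 := sq_sum_le_card_mul_sum_sq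
  rw [h2, h1, ← hVc]
  exact_mod_cast h3

theorem moment_bound {s Q K : ℕ} (hQ : s * 4 ^ s < Q) (P P' R : Finset ℕ)
    (hP : ∀ p ∈ P, p.Prime ∧ Q ≤ p ∧ p ≤ 2 * Q) (hP' : P' ⊆ P) (hR : R ⊆ P)
    (c : ℕ → ℤ) (M : ℕ → Finset ℕ) (k : ℕ → ℕ → ℤ)
    (hM : ∀ q ∈ P', M q ⊆ R) (hc : ∀ q ∈ P', ¬ (q : ℤ) ∣ c q)
    (hk : ∀ q ∈ P', ∀ p ∈ M q, |k q p| ≤ K ∧ (q : ℤ) ∣ (p : ℤ) * k q p - c q) :
    ∑ q ∈ P', (M q).card ^ (2 * s) ≤
      (2 * (s * K) + 1) * (s ^ s * R.card ^ s * P.card + 2 * s * R.card ^ (2 * s)) := by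
  classical
  set T : Finset (Fin s → ℕ) := Fintype.piFinset (fun _ => R) with hT
  have hTcard : T.card = R.card ^ s := by simp [hT]
  have hsQ : s < Q := by
    have : s * 1 ≤ s * 4 ^ s := Nat.mul_le_mul_left _ (Nat.one_le_pow _ _ (by norm_num))
    omega
  have hTmem : ∀ x ∈ T, ∀ i, (x i).Prime ∧ Q ≤ x i ∧ x i ≤ 2 * Q := by
    intro x hx i
    exact hP _ (hR (Fintype.mem_piFinset.1 hx i))
  -- lower bound for each `q`
  have h1 : ∀ q ∈ P', (M q).card ^ (2 * s) ≤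
      (2 * (s * K) + 1) * ((T ×ˢ T).filter (fun z => (q : ℤ) ∣ num z.1 z.2)).card := by
    intro q hq
    set Tq : Finset (Fin s → ℕ) := Fintype.piFinset (fun _ => M q) with hTq
    have hTqcard : Tq.card = (M q).card ^ s := by simp [hTq]
    have hcol := collisions Tq (fun x => ∑ i, k q (x i)) (s * K) (by
      intro x hx
      refine (Finset.abs_sum_le_sum_abs _ _).trans ?_
      calc ∑ i, |k q (x i)| ≤ ∑ _i : Fin s, (K : ℤ) :=
            Finset.sum_le_sum fun i _ => (hk q hq _ (Fintype.mem_piFinset.1 hx i)).1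
        _ = ((s * K : ℕ) : ℤ) := by simp)
    rw [hTqcard, ← pow_mul, mul_comm s 2] at hcol
    refine hcol.trans (Nat.mul_le_mul_left _ (Finset.card_le_card ?_))
    intro z hz
    rw [Finset.mem_filter, Finset.mem_product] at hz ⊢
    obtain ⟨⟨hz1, hz2⟩, hz3⟩ := hz
    refine ⟨⟨?_, ?_⟩, ?_⟩
    · exact Fintype.mem_piFinset.2 fun i => hM q hq (Fintype.mem_piFinset.1 hz1 i)
    · exact Fintype.mem_piFinset.2 fun i => hM q hq (Fintype.mem_piFinset.1 hz2 i)
    · exact dvd_num q (hP q (hP' hq)).1 (c q) (hc q hq) (k q) z.1 z.2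
        (fun i => (hk q hq _ (Fintype.mem_piFinset.1 hz1 i)).2)
        (fun i => (hk q hq _ (Fintype.mem_piFinset.1 hz2 i)).2) hz3
  refine (Finset.sum_le_sum h1).trans ?_
  rw [← Finset.mul_sum]
  refine Nat.mul_le_mul_left _ ?_
  -- swap
  have hswap : ∑ q ∈ P', ((T ×ˢ T).filter (fun z => (q : ℤ) ∣ num z.1 z.2)).card =
      ∑ z ∈ T ×ˢ T, (P'.filter (fun q : ℕ => (q : ℤ) ∣ num z.1 z.2)).card :=
    Finset.sum_card_bipartiteAbove_eq_sum_card_bipartiteBelow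
      (fun (q : ℕ) (z : (Fin s → ℕ) × (Fin s → ℕ)) => (q : ℤ) ∣ num z.1 z.2)
  rw [hswap]
  rw [← Finset.sum_filter_add_sum_filter_not (T ×ˢ T)
    (fun z : (Fin s → ℕ) × (Fin s → ℕ) => ∃ j, ∀ i, z.1 i ≠ z.2 j), add_comm]
  refine Nat.add_le_add ?_ ?_
  · -- diagonal
    have hle : ∀ z ∈ (T ×ˢ T).filter
        (fun z : (Fin s → ℕ) × (Fin s → ℕ) => ¬ ∃ j, ∀ i, z.1 i ≠ z.2 j),
        (P'.filter (fun q : ℕ => (q : ℤ) ∣ num z.1 z.2)).card ≤ P.card := fun z _ =>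
      (Finset.card_le_card (Finset.filter_subset _ _)).trans (Finset.card_le_card hP')
    refine (Finset.sum_le_card_nsmul _ _ _ hle).trans ?_
    rw [smul_eq_mul]
    refine Nat.mul_le_mul_right _ ?_
    -- count the diagonal
    have hsub : (T ×ˢ T).filter
        (fun z : (Fin s → ℕ) × (Fin s → ℕ) => ¬ ∃ j, ∀ i, z.1 i ≠ z.2 j) ⊆
        T.biUnion (fun x => (Fintype.piFinset (fun _ : Fin s => Finset.univ.image x)).image
          (fun y => (x, y))) := by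
      intro z hz
      rw [Finset.mem_filter, Finset.mem_product] at hz
      obtain ⟨⟨hz1, hz2⟩, hz3⟩ := hz
      push Not at hz3
      rw [Finset.mem_biUnion]
      refine ⟨z.1, hz1, ?_⟩
      rw [Finset.mem_image]
      refine ⟨z.2, Fintype.mem_piFinset.2 fun j => ?_, rfl⟩
      rw [Finset.mem_image]
      obtain ⟨i, hi⟩ := hz3 j
      exact ⟨i, Finset.mem_univ _, hi⟩
    refine (Finset.card_le_card hsub).trans ?_
    refine Finset.card_biUnion_le.trans ?_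
    have : ∀ x ∈ T, ((Fintype.piFinset (fun _ : Fin s => Finset.univ.image x)).image
          (fun y => (x, y))).card ≤ s ^ s := by
      intro x _
      refine Finset.card_image_le.trans ?_
      rw [Fintype.card_piFinset]
      simp only [Finset.prod_const, Finset.card_univ, Fintype.card_fin]
      refine Nat.pow_le_pow_left ?_ _
      refine Finset.card_image_le.trans ?_
      simp
    refine (Finset.sum_le_card_nsmul _ _ _ this).trans ?_
    rw [smul_eq_mul, hTcard, mul_comm]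
  · have hle : ∀ z ∈ (T ×ˢ T).filter
        (fun z : (Fin s → ℕ) × (Fin s → ℕ) => ∃ j, ∀ i, z.1 i ≠ z.2 j),
        (P'.filter (fun q : ℕ => (q : ℤ) ∣ num z.1 z.2)).card ≤ 2 * s := by
      intro z hz
      rw [Finset.mem_filter, Finset.mem_product] at hz
      obtain ⟨⟨hz1, hz2⟩, hz3⟩ := hz
      refine few_dvd hQ P' (fun p hp => ⟨(hP p (hP' hp)).1, (hP p (hP' hp)).2.1⟩) z.1 z.2
        (fun i => (hTmem _ hz1 i).2.2) (fun i => (hTmem _ hz2 i).2.2) ?_
      refine num_ne_zero z.1 z.2 (fun i => ⟨(hTmem _ hz1 i).1, ?_⟩)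
        (fun i => ⟨(hTmem _ hz2 i).1, ?_⟩) hz3
      · have := (hTmem _ hz1 i).2.1; omega
      · have := (hTmem _ hz2 i).2.1; omega
    refine (Finset.sum_le_card_nsmul _ _ _ hle).trans ?_
    rw [smul_eq_mul, mul_comm]
    refine Nat.mul_le_mul_left _ ?_
    refine (Finset.card_le_card (Finset.filter_subset _ _)).trans ?_
    rw [Finset.card_product, hTcard, ← pow_add]
    exact le_of_eq (by congr 1; ring)

end Pool.Agent.Hhelper87.Cover
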