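import Mathlib

/-!
Abstract incidence lemma: a family of lines with few total points has a rich point whose pencil
is met in many lines by a typical other line.
-/

set_option autoImplicit false

namespace Pool.Agent.Hhelper87.Cover

open Finset

section

variable {α β : Type*}

theorem sum_sq_le (V : Finset α) (P : Finset β) (I : α → β → Prop)
    [∀ a b, Decidable (I a b)]
    (hone : ∀ p ∈ P, ∀ q ∈ P, p ≠ q → ∀ m ∈ V, ∀ n ∈ V, I m p → I m q → I n p → I n q → m = n) :
    ∑ n ∈ V, (P.filter (fun p => I n p)).card ^ 2 ≤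
      ∑ n ∈ V, (P.filter (fun p => I n p)).card + P.card ^ 2 := by
  classical
  have h1 : ∀ n ∈ V, (P.filter (fun p => I n p)).card ^ 2 =
      ∑ p ∈ P, ∑ q ∈ P, if (I n p ∧ I n q) then 1 else 0 := by
    intro n _
    rw [sq, Finset.card_filter, Finset.sum_mul_sum]
    refine Finset.sum_congr rfl fun p _ => Finset.sum_congr rfl fun q _ => ?_
    by_cases hp : I n p <;> by_cases hq : I n q <;> simp [hp, hq]
  rw [Finset.sum_congr rfl h1, Finset.sum_comm]
  have h2 : ∀ p ∈ P, ∑ n ∈ V, ∑ q ∈ P, (if (I n p ∧ I n q) then 1 else 0) ≤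
      (V.filter (fun n => I n p)).card + P.card := by
    intro p hp
    rw [Finset.sum_comm]
    have h3 : ∀ q ∈ P, ∑ n ∈ V, (if (I n p ∧ I n q) then 1 else 0) ≤
        (if q = p then (V.filter (fun n => I n p)).card else 0) + 1 := by
      intro q hq
      by_cases hqp : q = p
      · subst hqp
        rw [if_pos rfl, Finset.card_filter]
        have : ∀ n ∈ V, (if (I n q ∧ I n q) then 1 else 0) = (if I n q then 1 else 0) := by
          intro n _; simp
        rw [Finset.sum_congr rfl this]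
        omega
      · rw [if_neg hqp, zero_add, ← Finset.card_filter, Finset.card_le_one]
        intro m hm n hn
        rw [Finset.mem_filter] at hm hn
        exact hone q hq p hp hqp m hm.1 n hn.1 hm.2.2 hm.2.1 hn.2.2 hn.2.1
    refine (Finset.sum_le_sum h3).trans ?_
    rw [Finset.sum_add_distrib, Finset.sum_ite_eq' P p, if_pos hp]
    simp
  refine (Finset.sum_le_sum h2).trans ?_
  rw [Finset.sum_add_distrib]
  have h4 : ∑ p ∈ P, (V.filter (fun n => I n p)).card =
      ∑ n ∈ V, (P.filter (fun p => I n p)).card :=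
    (Finset.sum_card_bipartiteAbove_eq_sum_card_bipartiteBelow I).symm
  rw [h4]
  simp [sq]

/-- for a point `n0` on some lines: the count of paths `n0 - p - n' - q`. -/
theorem paths_le (V : Finset α) (P : Finset β) (I : α → β → Prop)
    [∀ a b, Decidable (I a b)] (K : ℕ)
    (hK : ∀ p ∈ P, (V.filter (fun n => I n p)).card ≤ K)
    (hone : ∀ p ∈ P, ∀ q ∈ P, p ≠ q → ∀ m ∈ V, ∀ n ∈ V, I m p → I m q → I n p → I n q → m = n)
    (n0 : α) (hn0 : n0 ∈ V) :
    ∑ p ∈ P.filter (fun p => I n0 p), ∑ n ∈ V.filter (fun n => I n p),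
        (P.filter (fun q => I n q)).card ≤
      (P.filter (fun p => I n0 p)).card ^ 2 + (P.filter (fun p => I n0 p)).card * K +
      ∑ q ∈ P.filter (fun q => ¬ I n0 q),
        (P.filter (fun p => I n0 p ∧ ∃ n ∈ V, I n p ∧ I n q)).card := by
  classical
  set R := P.filter (fun p => I n0 p) with hR
  have hmain : ∀ p ∈ R, ∑ n ∈ V.filter (fun n => I n p), (P.filter (fun q => I n q)).card ≤
      R.card + K + ∑ q ∈ P.filter (fun q => ¬ I n0 q),
        (if (∃ n ∈ V, I n p ∧ I n q) then 1 else 0) := by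
    intro p hpR
    have hp : p ∈ P := (Finset.mem_filter.1 hpR).1
    have hpn : I n0 p := (Finset.mem_filter.1 hpR).2
    have hmem : n0 ∈ V.filter (fun n => I n p) := Finset.mem_filter.2 ⟨hn0, hpn⟩
    rw [← Finset.add_sum_erase _ _ hmem]
    have e1 : (P.filter (fun q => I n0 q)).card = R.card := rfl
    rw [e1]
    have h1 : ∀ n ∈ (V.filter (fun n => I n p)).erase n0, (P.filter (fun q => I n q)).card =
        1 + ∑ q ∈ P.filter (fun q => ¬ I n0 q), (if I n q then 1 else 0) := by
      intro n hn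
      rw [Finset.mem_erase, Finset.mem_filter] at hn
      obtain ⟨hne, hnV, hnp⟩ := hn
      rw [← Finset.card_filter, Finset.filter_filter]
      have : P.filter (fun q => I n q) =
          insert p (P.filter (fun q => ¬ I n0 q ∧ I n q)) := by
        ext q
        simp only [Finset.mem_filter, Finset.mem_insert]
        constructor
        · rintro ⟨hq, hnq⟩
          by_cases hqp : q = p
          · exact Or.inl hqp
          · refine Or.inr ⟨hq, fun h0 => hne ?_, hnq⟩
            exact hone q hq p hp hqp n hnV n0 hn0 hnq hnp h0 hpn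
        · rintro (rfl | ⟨hq, _, hnq⟩)
          · exact ⟨hp, hnp⟩
          · exact ⟨hq, hnq⟩
      rw [this, Finset.card_insert_of_notMem]
      · omega
      · simp only [Finset.mem_filter, not_and]
        intro _ h; exact absurd hpn h
    rw [Finset.sum_congr rfl h1, Finset.sum_add_distrib, Finset.sum_comm (t := P.filter _)]
    have h2 : ∑ x ∈ (V.filter (fun n => I n p)).erase n0, 1 ≤ K := by
      rw [Finset.sum_const, smul_eq_mul, mul_one]
      exact (Finset.card_le_card (Finset.erase_subset _ _)).trans (hK p hp)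
    have h3 : ∑ q ∈ P.filter (fun q => ¬ I n0 q),
        ∑ n ∈ (V.filter (fun n => I n p)).erase n0, (if I n q then 1 else 0) ≤
        ∑ q ∈ P.filter (fun q => ¬ I n0 q),
        (if (∃ n ∈ V, I n p ∧ I n q) then 1 else 0) := by
      refine Finset.sum_le_sum fun q hq => ?_
      rw [Finset.mem_filter] at hq
      rw [← Finset.card_filter]
      split_ifs with h
      · rw [Finset.card_le_one]
        intro m hm n hn
        rw [Finset.mem_filter, Finset.mem_erase, Finset.mem_filter] at hm hn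
        have hqp : q ≠ p := by
          rintro rfl; exact hq.2 hpn
        exact hone q hq.1 p hp hqp m hm.1.2.1 n hn.1.2.1 hm.2 hm.1.2.2 hn.2 hn.1.2.2
      · rw [Nat.le_zero, Finset.card_eq_zero, Finset.filter_eq_empty_iff]
        intro n hn hnq
        rw [Finset.mem_erase, Finset.mem_filter] at hn
        exact h ⟨n, hn.2.1, hn.2.2, hnq⟩
    omega
  refine (Finset.sum_le_sum hmain).trans ?_
  rw [Finset.sum_add_distrib, Finset.sum_add_distrib, Finset.sum_const, Finset.sum_const,
    smul_eq_mul, smul_eq_mul, Finset.sum_comm, sq]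
  refine Nat.add_le_add_left (le_of_eq ?_) _
  refine Finset.sum_congr rfl fun q _ => ?_
  rw [← Finset.card_filter, hR, Finset.filter_filter]

theorem final_arith (T P k t0 K W : ℝ) (hT : 0 < T) (hP : 0 < P) (hk : 0 < k) (ht0 : 0 < t0)
    (hTlow : P * k ≤ T) (h1 : 8 * k + 8 * P ≤ t0 * k ^ 2) (h2 : 32 * K ≤ t0 * k)
    (hWlow : t0 * T * k / 4 ≤ W) (hWup : W ≤ t0 * k / 16 * T + K * T + (T + P ^ 2)) : False := by
  have h11 : (8 * k + 8 * P) * T ≤ (t0 * k ^ 2) * T := mul_le_mul_of_nonneg_right h1 hT.le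
  have h12 : (8 * P) * (P * k) ≤ (8 * P) * T := mul_le_mul_of_nonneg_left hTlow (by positivity)
  have h13 : (T + P ^ 2) * k ≤ (t0 * k / 8 * T) * k := by
    have e1 : (t0 * k ^ 2) * T = 8 * ((t0 * k / 8 * T) * k) := by ring
    have e2 : (8 * k + 8 * P) * T = 8 * (T * k) + (8 * P) * T := by ring
    have e3 : (8 * P) * (P * k) = 8 * (P ^ 2 * k) := by ring
    have e4 : (T + P ^ 2) * k = T * k + P ^ 2 * k := by ring
    rw [e1, e2] at h11
    rw [e3] at h12
    rw [e4]
    linarith
  have h10 : T + P ^ 2 ≤ t0 * k / 8 * T := le_of_mul_le_mul_right h13 hk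
  have h14 : K * T ≤ t0 * k / 32 * T := by
    apply mul_le_mul_of_nonneg_right _ hT.le
    linarith
  have h15 : 0 < t0 * k * T := by positivity
  have e5 : t0 * T * k / 4 = (1 / 4) * (t0 * k * T) := by ring
  have e6 : t0 * k / 16 * T = (1 / 16) * (t0 * k * T) := by ring
  have e7 : t0 * k / 8 * T = (1 / 8) * (t0 * k * T) := by ring
  have e8 : t0 * k / 32 * T = (1 / 32) * (t0 * k * T) := by ring
  rw [e5] at hWlow
  rw [e6] at hWup
  rw [e7] at h10
  rw [e8] at h14
  linarith

theorem exists_pencil (V : Finset α) (P : Finset β) (I : α → β → Prop)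
    [∀ a b, Decidable (I a b)] (k K : ℕ) (u : ℝ)
    (hk : ∀ p ∈ P, k ≤ (V.filter (fun n => I n p)).card)
    (hK : ∀ p ∈ P, (V.filter (fun n => I n p)).card ≤ K)
    (hone : ∀ p ∈ P, ∀ q ∈ P, p ≠ q → ∀ m ∈ V, ∀ n ∈ V, I m p → I m q → I n p → I n q → m = n)
    (hu : ((V.filter (fun n => ∃ p ∈ P, I n p)).card : ℝ) ≤ u) (hupos : 0 < u)
    (hP : P.Nonempty) (hkpos : 0 < k)
    (t0 : ℝ) (ht0 : t0 = P.card * k / (2 * u))
    (h1 : 8 * (k : ℝ) + 8 * P.card ≤ t0 * k ^ 2)
    (h2 : 32 * (K : ℝ) ≤ t0 * k) :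
    ∃ n0 ∈ V, t0 ≤ (P.filter (fun p => I n0 p)).card ∧
      ((k : ℝ) ^ 2 / (32 * u)) * (P.filter (fun p => I n0 p)).card * P.card ≤
        ∑ q ∈ P.filter (fun q => ¬ I n0 q),
          ((P.filter (fun p => I n0 p ∧ ∃ n ∈ V, I n p ∧ I n q)).card : ℝ) := by
  classical
  by_contra hcon
  push Not at hcon
  set r : α → ℕ := fun n => (P.filter (fun p => I n p)).card with hr
  set T : ℝ := ∑ n ∈ V, (r n : ℝ) with hT
  have hPpos : (0 : ℝ) < P.card := by exact_mod_cast hP.card_pos
  have hkpos' : (0 : ℝ) < k := by exact_mod_cast hkpos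
  have ht0pos : 0 < t0 := by rw [ht0]; positivity
  -- total incidences
  have hTdc : ∑ n ∈ V, r n = ∑ p ∈ P, (V.filter (fun n => I n p)).card :=
    Finset.sum_card_bipartiteAbove_eq_sum_card_bipartiteBelow I
  have hTlow : (P.card : ℝ) * k ≤ T := by
    have : P.card * k ≤ ∑ n ∈ V, r n := by
      rw [hTdc, ← smul_eq_mul]
      exact Finset.card_nsmul_le_sum _ _ _ hk
    have h' : ((P.card * k : ℕ) : ℝ) ≤ ((∑ n ∈ V, r n : ℕ) : ℝ) := by exact_mod_cast this
    push_cast at h'
    exact h'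
  have hTpos : 0 < T := lt_of_lt_of_le (by positivity) hTlow
  set S := V.filter (fun n => t0 ≤ r n) with hS
  -- rich points carry half of the incidences
  have hpoor : ∑ n ∈ V.filter (fun n => ¬ t0 ≤ r n), (r n : ℝ) ≤ T / 2 := by
    have e1 : ∑ n ∈ V.filter (fun n => ¬ t0 ≤ r n), (r n : ℝ) =
        ∑ n ∈ (V.filter (fun n => ¬ t0 ≤ r n)).filter (fun n => ∃ p ∈ P, I n p), (r n : ℝ) := by
      symm
      refine Finset.sum_subset (Finset.filter_subset _ _) ?_
      intro n hn hn'
      rw [Finset.mem_filter, not_and] at hn'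
      have hn2 := hn' hn
      have : r n = 0 := by
        rw [hr]
        simp only [Finset.card_eq_zero, Finset.filter_eq_empty_iff]
        intro p hp hI
        exact hn2 ⟨p, hp, hI⟩
      rw [this]; simp
    rw [e1]
    calc ∑ n ∈ (V.filter (fun n => ¬ t0 ≤ r n)).filter (fun n => ∃ p ∈ P, I n p), (r n : ℝ)
        ≤ ∑ n ∈ (V.filter (fun n => ¬ t0 ≤ r n)).filter (fun n => ∃ p ∈ P, I n p), t0 := by
          refine Finset.sum_le_sum fun n hn => ?_
          rw [Finset.mem_filter, Finset.mem_filter] at hn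
          exact le_of_lt (not_le.1 hn.1.2)
      _ = ((V.filter (fun n => ¬ t0 ≤ r n)).filter (fun n => ∃ p ∈ P, I n p)).card * t0 := by
          rw [Finset.sum_const, nsmul_eq_mul]
      _ ≤ u * t0 := by
          refine mul_le_mul_of_nonneg_right ?_ ht0pos.le
          refine le_trans ?_ hu
          have : ((V.filter (fun n => ¬ t0 ≤ r n)).filter (fun n => ∃ p ∈ P, I n p)).card ≤
              (V.filter (fun n => ∃ p ∈ P, I n p)).card := by
            refine Finset.card_le_card ?_
            exact Finset.filter_subset_filter _ (Finset.filter_subset _ _)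
          exact_mod_cast this
      _ = (P.card : ℝ) * k / 2 := by rw [ht0]; field_simp
      _ ≤ T / 2 := by linarith
  have hrich : T / 2 ≤ ∑ n ∈ S, (r n : ℝ) := by
    have := Finset.sum_filter_add_sum_filter_not V (fun n => t0 ≤ (r n : ℝ)) (fun n => (r n : ℝ))
    have h' : ∑ n ∈ S, (r n : ℝ) + ∑ n ∈ V.filter (fun n => ¬ t0 ≤ r n), (r n : ℝ) = T := this
    linarith
  -- second moment along lines
  set Z : β → ℕ := fun p => (S.filter (fun n => I n p)).card with hZ
  have hZsum : ∑ p ∈ P, (Z p : ℝ) = ∑ n ∈ S, (r n : ℝ) := by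
    have : ∑ n ∈ S, r n = ∑ p ∈ P, Z p :=
      Finset.sum_card_bipartiteAbove_eq_sum_card_bipartiteBelow I
    exact_mod_cast this.symm
  have hCS : (∑ p ∈ P, (Z p : ℝ)) ^ 2 ≤ P.card * ∑ p ∈ P, (Z p : ℝ) ^ 2 :=
    sq_sum_le_card_mul_sum_sq
  -- paths
  set W : ℝ := ∑ n0 ∈ S, ∑ p ∈ P.filter (fun p => I n0 p),
    ∑ n ∈ V.filter (fun n => I n p), (r n : ℝ) with hW
  have hWlow : t0 * ∑ p ∈ P, (Z p : ℝ) ^ 2 ≤ W := by
    have e1 : W = ∑ p ∈ P, ∑ n0 ∈ S.filter (fun n => I n p),
        ∑ n ∈ V.filter (fun n => I n p), (r n : ℝ) := by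
      rw [hW]
      refine Finset.sum_comm' ?_
      intro n p
      simp only [Finset.mem_filter]
      tauto
    rw [e1, Finset.mul_sum]
    refine Finset.sum_le_sum fun p _ => ?_
    rw [Finset.sum_const, nsmul_eq_mul]
    have : (Z p : ℝ) * t0 ≤ ∑ n ∈ V.filter (fun n => I n p), (r n : ℝ) := by
      calc (Z p : ℝ) * t0 = ∑ n ∈ S.filter (fun n => I n p), t0 := by
            rw [Finset.sum_const, nsmul_eq_mul]
        _ ≤ ∑ n ∈ S.filter (fun n => I n p), (r n : ℝ) := by
            refine Finset.sum_le_sum fun n hn => ?_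
            rw [Finset.mem_filter, hS, Finset.mem_filter] at hn
            exact hn.1.2
        _ ≤ ∑ n ∈ V.filter (fun n => I n p), (r n : ℝ) := by
            refine Finset.sum_le_sum_of_subset_of_nonneg ?_ (fun _ _ _ => Nat.cast_nonneg _)
            exact Finset.filter_subset_filter _ (Finset.filter_subset _ _)
    have hZ0 : (0 : ℝ) ≤ Z p := Nat.cast_nonneg _
    have e2 : ((S.filter (fun n => I n p)).card : ℝ) = Z p := rfl
    rw [e2]
    calc t0 * (Z p : ℝ) ^ 2 = Z p * (Z p * t0) := by ring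
      _ ≤ _ := mul_le_mul_of_nonneg_left this hZ0
  have hWup : W ≤ ((k : ℝ) ^ 2 / (32 * u)) * P.card * T + K * T + (T + (P.card : ℝ) ^ 2) := by
    have step : ∀ n0 ∈ S, ∑ p ∈ P.filter (fun p => I n0 p),
        ∑ n ∈ V.filter (fun n => I n p), (r n : ℝ) ≤
        ((k : ℝ) ^ 2 / (32 * u)) * P.card * r n0 + K * r n0 + (r n0 : ℝ) ^ 2 := by
      intro n0 hn0
      rw [hS, Finset.mem_filter] at hn0
      have h3 := hcon n0 hn0.1 hn0.2
      have h4 := paths_le V P I K hK hone n0 hn0.1
      have h5 : ((∑ p ∈ P.filter (fun p => I n0 p), ∑ n ∈ V.filter (fun n => I n p),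
          (P.filter (fun q => I n q)).card : ℕ) : ℝ) ≤ (((P.filter (fun p => I n0 p)).card ^ 2 +
          (P.filter (fun p => I n0 p)).card * K + ∑ q ∈ P.filter (fun q => ¬ I n0 q),
          (P.filter (fun p => I n0 p ∧ ∃ n ∈ V, I n p ∧ I n q)).card : ℕ) : ℝ) := by
        exact_mod_cast h4
      push_cast at h5
      refine h5.trans ?_
      have e3 : ((P.filter (fun p => I n0 p)).card : ℝ) = r n0 := rfl
      rw [e3] at h3 ⊢
      nlinarith
    refine (Finset.sum_le_sum step).trans ?_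
    rw [Finset.sum_add_distrib, Finset.sum_add_distrib, ← Finset.mul_sum, ← Finset.mul_sum]
    have hsub : ∑ n ∈ S, (r n : ℝ) ≤ T :=
      Finset.sum_le_sum_of_subset_of_nonneg (Finset.filter_subset _ _)
        (fun _ _ _ => Nat.cast_nonneg _)
    have hsq : ∑ n ∈ S, (r n : ℝ) ^ 2 ≤ T + (P.card : ℝ) ^ 2 := by
      have h6 := sum_sq_le V P I hone
      have h7 : ((∑ n ∈ V, (P.filter (fun p => I n p)).card ^ 2 : ℕ) : ℝ) ≤
        ((∑ n ∈ V, (P.filter (fun p => I n p)).card + P.card ^ 2 : ℕ) : ℝ) := by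
        exact_mod_cast h6
      push_cast at h7
      refine le_trans ?_ h7
      exact Finset.sum_le_sum_of_subset_of_nonneg (Finset.filter_subset _ _)
        (fun _ _ _ => by positivity)
    have hc1 : (0 : ℝ) ≤ ((k : ℝ) ^ 2 / (32 * u)) * P.card := by positivity
    have hc2 : (0 : ℝ) ≤ K := Nat.cast_nonneg _
    have := mul_le_mul_of_nonneg_left hsub hc1
    have := mul_le_mul_of_nonneg_left hsub hc2
    linarith
  -- conclude
  have hZlow : T ^ 2 / 4 ≤ P.card * ∑ p ∈ P, (Z p : ℝ) ^ 2 := by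
    refine le_trans ?_ hCS
    rw [hZsum]
    have hT2 : 0 ≤ T / 2 := (half_pos hTpos).le
    have h0 : (T / 2) ^ 2 ≤ (∑ n ∈ S, (r n : ℝ)) ^ 2 := pow_le_pow_left₀ hT2 hrich 2
    have e0 : T ^ 2 / 4 = (T / 2) ^ 2 := by ring
    rw [e0]; exact h0
  have hWlow2 : t0 * T * k / 4 ≤ W := by
    refine le_trans ?_ hWlow
    have h8 : T * k / 4 ≤ ∑ p ∈ P, (Z p : ℝ) ^ 2 := by
      have h9 : (P.card : ℝ) * (T * k / 4) ≤ P.card * ∑ p ∈ P, (Z p : ℝ) ^ 2 := by
        refine le_trans ?_ hZlow
        have e0 : (P.card : ℝ) * (T * k / 4) = (P.card * k) * T / 4 := by ring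
        have e9 : T ^ 2 / 4 = T * T / 4 := by ring
        rw [e0, e9]
        have := mul_le_mul_of_nonneg_right hTlow hTpos.le
        linarith
      exact le_of_mul_le_mul_left h9 hPpos
    have e10 : t0 * T * k / 4 = t0 * (T * k / 4) := by ring
    rw [e10]
    exact mul_le_mul_of_nonneg_left h8 ht0pos.le
  have hmu : ((k : ℝ) ^ 2 / (32 * u)) * P.card = t0 * k / 16 := by
    rw [ht0]; field_simp; ring
  rw [hmu] at hWup
  exact final_arith T P.card k t0 K W hTpos hPpos hkpos' ht0pos hTlow h1 h2 hWlow2 hWup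

end

end Pool.Agent.Hhelper87.Cover
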