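import Mathlib
import Pool.Agent.Hhelper87.Cover.Pencil
import Pool.Agent.Hhelper87.Cover.Moment

/-!
Finite form of the covering bound.
-/

set_option autoImplicit false

namespace Pool.Agent.Hhelper87.Cover

open Finset

/-- `n` lies in the chosen residue class modulo `p`. -/
def Inc (a : ℕ → ℤ) (n p : ℕ) : Prop := (p : ℤ) ∣ (n : ℤ) - a p

instance (a : ℕ → ℤ) (n p : ℕ) : Decidable (Inc a n p) :=
  inferInstanceAs (Decidable ((p : ℤ) ∣ (n : ℤ) - a p))

theorem ap_card_le (N p : ℕ) (a : ℤ) :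
    ((Finset.Icc 1 N).filter (fun n : ℕ => (p : ℤ) ∣ (n : ℤ) - a)).card ≤ N / p + 1 := by
  rw [← Finset.card_range (N / p + 1)]
  refine Finset.card_le_card_of_injOn (fun n => n / p) ?_ ?_
  · intro n hn
    rw [Finset.mem_coe, Finset.mem_filter, Finset.mem_Icc] at hn
    rw [Finset.mem_coe, Finset.mem_range]
    have := Nat.div_le_div_right (c := p) hn.1.2
    show n / p < N / p + 1
    omega
  · intro m hm n hn hmn
    rw [Finset.mem_coe, Finset.mem_filter] at hm hn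
    have h1 : (p : ℤ) ∣ (m : ℤ) - n := by
      have := dvd_sub hm.2 hn.2
      have e : (m : ℤ) - a - ((n : ℤ) - a) = m - n := by ring
      rwa [e] at this
    have h2 : m ≡ n [MOD p] := by
      have := (Int.modEq_iff_dvd.2 (by simpa using h1) : (n : ℤ) ≡ m [ZMOD p])
      exact ((Int.natCast_modEq_iff).1 this).symm
    have h3 : m / p = n / p := hmn
    have h4 : m % p = n % p := h2
    rw [← Nat.div_add_mod m p, ← Nat.div_add_mod n p, h3, h4]

theorem ap_card_ge (N p : ℕ) (hp : 0 < p) (a : ℤ) :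
    N / p ≤ ((Finset.Icc 1 N).filter (fun n : ℕ => (p : ℤ) ∣ (n : ℤ) - a)).card := by
  rw [← Finset.card_range (N / p)]
  have hp' : (0 : ℤ) < p := by exact_mod_cast hp
  set v : ℕ := ((a - 1) % p).toNat + 1 with hv
  have hvnn : 0 ≤ (a - 1) % p := Int.emod_nonneg _ hp'.ne'
  have hvlt : (a - 1) % p < p := Int.emod_lt_of_pos _ hp'
  have hvle : v ≤ p := by omega
  have hvd : (p : ℤ) ∣ (v : ℤ) - a := by
    have e : (v : ℤ) = (a - 1) % p + 1 := by
      rw [hv]; push_cast; rw [Int.toNat_of_nonneg hvnn]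
    rw [e]
    have := Int.emod_add_mul_ediv (a - 1) p
    exact ⟨-((a - 1) / p), by linarith⟩
  refine Finset.card_le_card_of_injOn (fun j => v + j * p) ?_ ?_
  · intro j hj
    rw [Finset.mem_coe, Finset.mem_range] at hj
    rw [Finset.mem_coe, Finset.mem_filter, Finset.mem_Icc]
    refine ⟨⟨?_, ?_⟩, ?_⟩
    · show 1 ≤ v + j * p
      have : 1 ≤ v := by omega
      exact this.trans (Nat.le_add_right _ _)
    · show v + j * p ≤ N
      have h1 : (j + 1) * p ≤ N := (Nat.mul_le_mul_right _ hj).trans (Nat.div_mul_le_self N p)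
      nlinarith
    · show (p : ℤ) ∣ ((v + j * p : ℕ) : ℤ) - a
      push_cast
      have e : (v : ℤ) + j * p - a = (v - a) + j * p := by ring
      rw [e]
      exact dvd_add hvd (Dvd.intro_left _ rfl)
  · intro i _ j _ hij
    have h1 : v + i * p = v + j * p := hij
    have h2 : i * p = j * p := by omega
    exact Nat.eq_of_mul_eq_mul_right hp h2

theorem finite_core (N Q s : ℕ) (hs : 0 < s) (hQN : N < Q ^ 2) (hsQ : s * 4 ^ s < Q)
    (P : Finset ℕ) (hP : ∀ p ∈ P, p.Prime ∧ Q ≤ p ∧ p ≤ 2 * Q) (hPne : P.Nonempty) (a : ℕ → ℤ)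
    (hk : 0 < N / (2 * Q)) (u : ℝ) (hu0 : 0 < u)
    (hu : (((Finset.Icc 1 N).filter (fun n : ℕ => ∃ p ∈ P, Inc a n p)).card : ℝ) ≤ u)
    (t0 μ : ℝ) (ht0 : t0 = P.card * (N / (2 * Q) : ℕ) / (2 * u))
    (hμ : μ = ((N / (2 * Q) : ℕ) : ℝ) ^ 2 / (32 * u))
    (h1 : 8 * ((N / (2 * Q) : ℕ) : ℝ) + 8 * P.card ≤ t0 * ((N / (2 * Q) : ℕ) : ℝ) ^ 2)
    (h2 : 32 * ((N / Q + 1 : ℕ) : ℝ) ≤ t0 * ((N / (2 * Q) : ℕ) : ℝ))
    (h3 : 4 * s * (2 * (s * ((N / Q + 1 : ℕ) : ℝ)) + 1) < P.card * μ ^ (2 * s))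
    (h4 : 2 * (s : ℝ) ^ s * (2 * (s * ((N / Q + 1 : ℕ) : ℝ)) + 1) < μ ^ (2 * s) * t0 ^ s) :
    False := by
  set k : ℕ := N / (2 * Q) with hkdef
  set K : ℕ := N / Q + 1 with hKdef
  have hQpos : 0 < Q := by omega
  have hAk : ∀ p ∈ P, k ≤ ((Finset.Icc 1 N).filter (fun n => Inc a n p)).card := by
    intro p hp
    have h5 := hP p hp
    refine le_trans ?_ (ap_card_ge N p h5.1.pos (a p))
    exact Nat.div_le_div_left h5.2.2 h5.1.pos
  have hAK : ∀ p ∈ P, ((Finset.Icc 1 N).filter (fun n => Inc a n p)).card ≤ K := by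
    intro p hp
    have h5 := hP p hp
    refine (ap_card_le N p (a p)).trans ?_
    have := Nat.div_le_div_left (a := N) h5.2.1 hQpos
    omega
  have hone : ∀ p ∈ P, ∀ q ∈ P, p ≠ q → ∀ m ∈ Finset.Icc 1 N, ∀ n ∈ Finset.Icc 1 N,
      Inc a m p → Inc a m q → Inc a n p → Inc a n q → m = n := by
    intro p hp q hq hpq m hm n hn hmp hmq hnp hnq
    rw [Finset.mem_Icc] at hm hn
    have h5 := hP p hp
    have h6 := hP q hq
    have hd1 : (p : ℤ) ∣ (m : ℤ) - n := by
      have := dvd_sub hmp hnp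
      have e : (m : ℤ) - a p - ((n : ℤ) - a p) = m - n := by ring
      rwa [e] at this
    have hd2 : (q : ℤ) ∣ (m : ℤ) - n := by
      have := dvd_sub hmq hnq
      have e : (m : ℤ) - a q - ((n : ℤ) - a q) = m - n := by ring
      rwa [e] at this
    have hcop : IsCoprime (p : ℤ) (q : ℤ) :=
      Nat.isCoprime_iff_coprime.2 ((Nat.coprime_primes h5.1 h6.1).2 hpq)
    have hd := hcop.mul_dvd hd1 hd2
    have hge : (Q : ℤ) ^ 2 ≤ (p : ℤ) * q := by
      have h7 : Q * Q ≤ p * q := Nat.mul_le_mul h5.2.1 h6.2.1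
      rw [sq]; exact_mod_cast h7
    have hlt : (N : ℤ) < (Q : ℤ) ^ 2 := by exact_mod_cast hQN
    have habs : |(m : ℤ) - n| < (p : ℤ) * q := by
      rw [abs_lt]; constructor <;> omega
    have := Int.eq_zero_of_abs_lt_dvd hd habs
    omega
  obtain ⟨n0, hn0, ht, hsum⟩ := exists_pencil (Finset.Icc 1 N) P (Inc a) k K u hAk hAK hone hu hu0
    hPne hk t0 ht0 h1 h2
  set R := P.filter (fun p => Inc a n0 p) with hR
  set P' := P.filter (fun q => ¬ Inc a n0 q) with hP'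
  obtain ⟨M, hMmem, hMsum⟩ : ∃ M : ℕ → Finset ℕ,
      (∀ q p, p ∈ M q ↔ p ∈ P ∧ Inc a n0 p ∧ ∃ n ∈ Finset.Icc 1 N, Inc a n p ∧ Inc a n q) ∧
      (k : ℝ) ^ 2 / (32 * u) * R.card * P.card ≤ ∑ q ∈ P', ((M q).card : ℝ) :=
    ⟨_, fun q p => Finset.mem_filter, hsum⟩
  -- the multipliers
  have hex : ∀ q p, p ∈ M q → ∃ k' : ℤ, |k'| ≤ K ∧ (q : ℤ) ∣ (p : ℤ) * k' - (a q - n0) := by
    intro q p hp
    obtain ⟨hpP, hn0p, n, hn, hnp, hnq⟩ := (hMmem q p).1 hp
    have h5 := hP p hpP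
    rw [Finset.mem_Icc] at hn hn0
    have hd1 : (p : ℤ) ∣ (n : ℤ) - n0 := by
      have := dvd_sub hnp hn0p
      have e : (n : ℤ) - a p - ((n0 : ℤ) - a p) = n - n0 := by ring
      rwa [e] at this
    obtain ⟨k', hk'⟩ := hd1
    refine ⟨k', ?_, ?_⟩
    · have hle : (p : ℤ) * |k'| ≤ N := by
        have : |(p : ℤ) * k'| ≤ N := by
          rw [← hk', abs_le]; constructor <;> omega
        rwa [abs_mul, Nat.abs_cast] at this
      have hle2 : Q * k'.natAbs ≤ N := by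
        have h8 : (Q : ℤ) * |k'| ≤ (p : ℤ) * |k'| :=
          mul_le_mul_of_nonneg_right (by exact_mod_cast h5.2.1) (abs_nonneg _)
        have h9 : (Q : ℤ) * |k'| ≤ N := h8.trans hle
        rw [Int.abs_eq_natAbs] at h9
        exact_mod_cast h9
      have : k'.natAbs ≤ N / Q := by
        rw [Nat.le_div_iff_mul_le hQpos, mul_comm]; exact hle2
      rw [Int.abs_eq_natAbs]
      exact_mod_cast (by omega : k'.natAbs ≤ K)
    · have e : (p : ℤ) * k' - (a q - n0) = n - a q := by rw [← hk']; ring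
      rw [e]; exact hnq
  have hmb := moment_bound (s := s) (Q := Q) (K := K) hsQ P P' R hP (Finset.filter_subset _ _)
    (Finset.filter_subset _ _) (fun q => a q - n0) M
    (fun q p => if h : p ∈ M q then (hex q p h).choose else 0)
    (by
      intro q _ p hp
      have hp' := (hMmem q p).1 hp
      exact Finset.mem_filter.2 ⟨hp'.1, hp'.2.1⟩)
    (by
      intro q hq hd
      rw [hP', Finset.mem_filter] at hq
      apply hq.2
      show (q : ℤ) ∣ (n0 : ℤ) - a q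
      have := (dvd_neg).2 hd
      simpa using this)
    (by
      intro q _ p hp
      simp only [hp, dite_true]
      exact (hex q p hp).choose_spec)
  -- real inequalities
  have hPpos : (0 : ℝ) < P.card := by exact_mod_cast hPne.card_pos
  have hkpos : (0 : ℝ) < k := by exact_mod_cast hk
  have ht0pos : 0 < t0 := by rw [ht0]; positivity
  have hμpos : 0 < μ := by rw [hμ]; positivity
  set t : ℝ := (R.card : ℝ) with htdef
  have htpos : 0 < t := lt_of_lt_of_le ht0pos ht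
  have hsum' : μ * t * P.card ≤ ∑ q ∈ P', ((M q).card : ℝ) := by
    rw [hμ]; exact hMsum
  have hP'ne : P'.Nonempty := by
    by_contra hne
    rw [Finset.not_nonempty_iff_eq_empty] at hne
    rw [hne, Finset.sum_empty] at hsum'
    have : 0 < μ * t * P.card := by positivity
    linarith
  have hP'pos : (0 : ℝ) < P'.card := by exact_mod_cast hP'ne.card_pos
  have hP'le : (P'.card : ℝ) ≤ P.card := by
    exact_mod_cast Finset.card_le_card (Finset.filter_subset _ _)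
  obtain ⟨m, hm⟩ : ∃ m, 2 * s = m + 1 := ⟨2 * s - 1, by omega⟩
  have hpm := pow_sum_div_card_le_sum_pow (s := P') (f := fun q => ((M q).card : ℝ))
    (fun q _ => Nat.cast_nonneg _) m
  rw [← hm] at hpm
  have hlow : (μ * t) ^ (2 * s) * P.card ≤ ∑ q ∈ P', ((M q).card : ℝ) ^ (2 * s) := by
    refine le_trans ?_ hpm
    rw [le_div_iff₀ (by positivity)]
    calc (μ * t) ^ (2 * s) * P.card * (P'.card : ℝ) ^ m
        ≤ (μ * t) ^ (2 * s) * P.card * (P.card : ℝ) ^ m := by gcongr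
      _ = (μ * t * P.card) ^ (2 * s) := by
          rw [mul_pow (μ * t) (P.card : ℝ) (2 * s)]
          have : (P.card : ℝ) ^ (2 * s) = P.card * (P.card : ℝ) ^ m := by
            rw [hm, pow_succ]; ring
          rw [this]; ring
      _ ≤ _ := pow_le_pow_left₀ (by positivity) hsum' _
  have hup : ∑ q ∈ P', ((M q).card : ℝ) ^ (2 * s) ≤
      (2 * (s * (K : ℝ)) + 1) * ((s : ℝ) ^ s * t ^ s * P.card + 2 * s * t ^ (2 * s)) := by
    have hmb' : ((∑ q ∈ P', (M q).card ^ (2 * s) : ℕ) : ℝ) ≤ (((2 * (s * K) + 1) *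
        (s ^ s * R.card ^ s * P.card + 2 * s * R.card ^ (2 * s)) : ℕ) : ℝ) := by
      exact_mod_cast hmb
    push_cast at hmb'
    exact hmb'
  have hts : t0 ^ s ≤ t ^ s := pow_le_pow_left₀ ht0pos.le ht s
  have hts0 : 0 < t ^ s := by positivity
  set B : ℝ := 2 * (s * (K : ℝ)) + 1 with hB
  have hBpos : 0 < B := by positivity
  have e1 : t ^ (2 * s) = t ^ s * t ^ s := by rw [two_mul, pow_add]
  have e2 : (μ * t) ^ (2 * s) * P.card = μ ^ (2 * s) * P.card * (t ^ s * t ^ s) := by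
    rw [mul_pow, e1]; ring
  rw [e2] at hlow
  rw [e1] at hup
  have h5 : 2 * (s : ℝ) ^ s * B < μ ^ (2 * s) * t ^ s := by
    refine lt_of_lt_of_le h4 ?_
    gcongr
  have h6 : 2 * (s : ℝ) ^ s * B * (t ^ s * P.card) < μ ^ (2 * s) * t ^ s * (t ^ s * P.card) :=
    mul_lt_mul_of_pos_right h5 (by positivity)
  have h7 : 4 * s * B * (t ^ s * t ^ s) < P.card * μ ^ (2 * s) * (t ^ s * t ^ s) :=
    mul_lt_mul_of_pos_right h3 (by positivity)
  have h8 := hlow.trans hup
  clear_value B t k K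
  have e3 : B * ((s : ℝ) ^ s * t ^ s * P.card + 2 * s * (t ^ s * t ^ s)) =
      (2 * (s : ℝ) ^ s * B * (t ^ s * P.card)) / 2 + (4 * s * B * (t ^ s * t ^ s)) / 2 := by ring
  have e4 : μ ^ (2 * s) * t ^ s * (t ^ s * P.card) = μ ^ (2 * s) * P.card * (t ^ s * t ^ s) := by
    ring
  have e5 : P.card * μ ^ (2 * s) * (t ^ s * t ^ s) = μ ^ (2 * s) * P.card * (t ^ s * t ^ s) := by
    ring
  rw [e3] at h8
  rw [e4] at h6
  rw [e5] at h7
  linarith

end Pool.Agent.Hhelper87.Cover
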