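import Mathlib
import Pool.Agent.Lib.PNT
import Pool.Agent.Hhelper87.Cover.Finite

/-!
Asymptotics for the covering bound.
-/

set_option autoImplicit false

namespace Pool.Agent.Hhelper87.Cover

open Finset Filter Topology

theorem ev_pow (C e1 e2 : ℝ) (h : e1 < e2) : ∀ᶠ x : ℝ in atTop, C * x ^ e1 < x ^ e2 := by
  have h1 : Tendsto (fun x : ℝ => x ^ (e2 - e1)) atTop atTop := tendsto_rpow_atTop (by linarith)
  filter_upwards [h1.eventually_gt_atTop C, eventually_gt_atTop 0] with x hx hx0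
  have h2 : x ^ e2 = x ^ (e2 - e1) * x ^ e1 := by
    rw [← Real.rpow_add hx0]; congr 1; ring
  rw [h2]
  exact mul_lt_mul_of_pos_right hx (Real.rpow_pos_of_pos hx0 _)

theorem primes_count (η : ℝ) (hη : 0 < η) : ∀ᶠ y : ℝ in atTop, ∀ S : Finset ℕ,
    (∀ p : ℕ, p.Prime → y ≤ p → (p : ℝ) < 2 * y → p ∈ S) → y ^ (1 - η) ≤ S.card := by
  have hθ := Pool.Agent.Lib.PNT.theta
  have hθ2 : Tendsto (fun y : ℝ => Chebyshev.theta (3 / 2 * y) / (3 / 2 * y)) atTop (𝓝 1) :=
    hθ.comp (tendsto_id.const_mul_atTop (by norm_num))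
  have hlog : Tendsto (fun x : ℝ => Real.log x / x ^ η) atTop (𝓝 0) :=
    (isLittleO_log_rpow_atTop hη).tendsto_div_nhds_zero
  filter_upwards [hθ.eventually_lt_const (show (1 : ℝ) < 11 / 10 by norm_num),
    hθ2.eventually_const_lt (show (9 / 10 : ℝ) < 1 by norm_num),
    hlog.eventually_lt_const (show (0 : ℝ) < 1 / 8 by norm_num),
    eventually_ge_atTop 2] with y h1 h2 h3 hy S hS
  have hy0 : (0 : ℝ) < y := by linarith
  rw [div_lt_iff₀ hy0] at h1
  rw [lt_div_iff₀ (by positivity)] at h2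
  have hyη : 0 < y ^ η := Real.rpow_pos_of_pos hy0 _
  rw [div_lt_iff₀ hyη] at h3
  -- theta difference
  have h4 : Chebyshev.theta (3 / 2 * y) - Chebyshev.theta y ≤ S.card * (2 * Real.log y) := by
    have hfl : ⌊y⌋₊ ≤ ⌊3 / 2 * y⌋₊ := Nat.floor_le_floor (by linarith)
    have e1 : Chebyshev.theta (3 / 2 * y) - Chebyshev.theta y =
        ∑ p ∈ (Finset.Ioc ⌊y⌋₊ ⌊3 / 2 * y⌋₊).filter Nat.Prime, Real.log p := by
      unfold Chebyshev.theta
      have : (Finset.Ioc 0 ⌊3 / 2 * y⌋₊).filter Nat.Prime =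
          (Finset.Ioc 0 ⌊y⌋₊).filter Nat.Prime ∪
          (Finset.Ioc ⌊y⌋₊ ⌊3 / 2 * y⌋₊).filter Nat.Prime := by
        ext p
        simp only [Finset.mem_union, Finset.mem_filter, Finset.mem_Ioc]
        constructor
        · rintro ⟨⟨a1, a2⟩, a3⟩
          by_cases h : p ≤ ⌊y⌋₊
          · exact Or.inl ⟨⟨a1, h⟩, a3⟩
          · exact Or.inr ⟨⟨by omega, a2⟩, a3⟩
        · rintro (⟨⟨a1, a2⟩, a3⟩ | ⟨⟨a1, a2⟩, a3⟩)
          · exact ⟨⟨a1, by omega⟩, a3⟩
          · exact ⟨⟨by omega, a2⟩, a3⟩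
      rw [this, Finset.sum_union]
      · ring
      · rw [Finset.disjoint_left]
        intro p hp hp'
        simp only [Finset.mem_filter, Finset.mem_Ioc] at hp hp'
        omega
    rw [e1]
    calc ∑ p ∈ (Finset.Ioc ⌊y⌋₊ ⌊3 / 2 * y⌋₊).filter Nat.Prime, Real.log p
        ≤ ∑ p ∈ (Finset.Ioc ⌊y⌋₊ ⌊3 / 2 * y⌋₊).filter Nat.Prime, (2 * Real.log y) := by
          refine Finset.sum_le_sum fun p hp => ?_
          simp only [Finset.mem_filter, Finset.mem_Ioc] at hp
          have hple : (p : ℝ) ≤ 3 / 2 * y := by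
            exact (Nat.le_floor_iff (by positivity)).1 hp.1.2
          have hp0 : (0 : ℝ) < p := by exact_mod_cast hp.2.pos
          have : (p : ℝ) ≤ y ^ 2 := by nlinarith
          calc Real.log p ≤ Real.log (y ^ 2) := Real.log_le_log hp0 this
            _ = 2 * Real.log y := by rw [Real.log_pow]; norm_num
      _ = ((Finset.Ioc ⌊y⌋₊ ⌊3 / 2 * y⌋₊).filter Nat.Prime).card * (2 * Real.log y) := by
          rw [Finset.sum_const, nsmul_eq_mul]
      _ ≤ S.card * (2 * Real.log y) := by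
          refine mul_le_mul_of_nonneg_right ?_ (by
            have := Real.log_nonneg (by linarith : (1 : ℝ) ≤ y); linarith)
          have : (Finset.Ioc ⌊y⌋₊ ⌊3 / 2 * y⌋₊).filter Nat.Prime ⊆ S := by
            intro p hp
            simp only [Finset.mem_filter, Finset.mem_Ioc] at hp
            have hple : (p : ℝ) ≤ 3 / 2 * y := (Nat.le_floor_iff (by positivity)).1 hp.1.2
            have hpge : y < p := (Nat.floor_lt hy0.le).1 hp.1.1
            exact hS p hp.2 hpge.le (by linarith)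
          exact_mod_cast Finset.card_le_card this
  have h5 : y / 4 ≤ S.card * (2 * Real.log y) := by linarith
  have h6 : (S.card : ℝ) * (2 * Real.log y) ≤ S.card * (1 / 4 * y ^ η) := by
    refine mul_le_mul_of_nonneg_left ?_ (Nat.cast_nonneg _)
    linarith
  have h7 : y ^ (1 - η) * y ^ η = y := by
    rw [← Real.rpow_add hy0]; simp
  have h8 : y ^ (1 - η) * y ^ η ≤ S.card * y ^ η := by
    rw [h7]; linarith
  exact le_of_mul_le_mul_right h8 hyη

theorem main_ineq (α c η : ℝ) (s : ℕ) (hs : 0 < s) (hα : 1 / 2 < α) (hc : 0 < c)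
    (hη : 0 < η) (i1 : η + 2 * s * c < 2 * α - 1) (i2 : 3 * c + η < 2 * α - 1 - (1 - α) / s)
    (i3 : c + η < 1 - α) :
    ∀ᶠ x : ℝ in atTop, ∀ p k K : ℝ, x ^ (α - η) ≤ p → x ^ (1 - α) / 5 ≤ k → 0 ≤ K →
      K ≤ 2 * x ^ (1 - α) →
      (8 * k + 8 * p ≤ (p * k / (2 * x ^ (2 - 2 * α + c))) * k ^ 2) ∧
      (32 * K ≤ (p * k / (2 * x ^ (2 - 2 * α + c))) * k) ∧
      (4 * s * (2 * (s * K) + 1) < p * (k ^ 2 / (32 * x ^ (2 - 2 * α + c))) ^ (2 * s)) ∧
      (2 * (s : ℝ) ^ s * (2 * (s * K) + 1) <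
        (k ^ 2 / (32 * x ^ (2 - 2 * α + c))) ^ (2 * s) *
          (p * k / (2 * x ^ (2 - 2 * α + c))) ^ s) := by
  have hsR : (1 : ℝ) ≤ s := by exact_mod_cast hs
  have hs0 : (0 : ℝ) < s := by linarith
  have i2' : 1 - α < s * (2 * α - 1 - 3 * c - η) := by
    have : (1 - α) / s < 2 * α - 1 - 3 * c - η := by linarith
    rw [div_lt_iff₀ hs0] at this
    linarith
  have hpos1 : 0 < 2 * α - 1 - c - η := by
    have : 0 ≤ (1 - α) / s := by
      apply div_nonneg <;> linarith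
    linarith
  filter_upwards [ev_pow 800 0 (α - c - η) (by linarith),
    ev_pow 4000 (2 - 2 * α + c) (3 - 3 * α) (by linarith),
    ev_pow 3200 0 (2 * α - 1 - c - η) (by linarith),
    ev_pow (20 * s ^ 2 * 800 ^ (2 * s)) (1 - α) (α - η - 2 * s * c) (by linarith),
    ev_pow (10 * s ^ s * s * (800 ^ (2 * s) * 10 ^ s)) (1 - α) (s * (2 * α - 1 - 3 * c - η)) i2',
    eventually_ge_atTop 1] with x f1 f2 f3 f4 f5 hx1 p k K hp hk hK0 hK
  have hx : 0 < x := by linarith
  rw [Real.rpow_zero, mul_one] at f1 f3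
  set u : ℝ := x ^ (2 - 2 * α + c) with hu
  have hu0 : 0 < u := Real.rpow_pos_of_pos hx _
  set L : ℝ := x ^ (1 - α) with hL
  have hL1 : 1 ≤ L := Real.one_le_rpow hx1 (by linarith)
  have hL0 : 0 < L := by linarith
  have hk0 : 0 < k := lt_of_lt_of_le (by positivity) hk
  have hpα : 0 < x ^ (α - η) := Real.rpow_pos_of_pos hx _
  have hp0 : 0 < p := lt_of_lt_of_le hpα hp
  -- lower bound for t0
  have hT : x ^ (2 * α - 1 - c - η) / 10 ≤ p * k / (2 * u) := by
    rw [le_div_iff₀ (by positivity)]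
    calc x ^ (2 * α - 1 - c - η) / 10 * (2 * u) = x ^ (α - η) * (L / 5) := by
          have : x ^ (2 * α - 1 - c - η) * u = x ^ (α - η) * L := by
            rw [hu, hL, ← Real.rpow_add hx, ← Real.rpow_add hx]; congr 1; ring
          linear_combination (1 / 5) * this
      _ ≤ p * k := mul_le_mul hp hk (by positivity) hp0.le
  have hμ : x ^ (-c) / 800 ≤ k ^ 2 / (32 * u) := by
    rw [le_div_iff₀ (by positivity)]
    calc x ^ (-c) / 800 * (32 * u) = (L / 5) ^ 2 := by
          have : x ^ (-c) * u = L ^ 2 := by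
            rw [hu, hL, ← Real.rpow_add hx, ← Real.rpow_natCast, ← Real.rpow_mul hx.le]
            congr 1; push_cast; ring
          linear_combination (1 / 25) * this
      _ ≤ k ^ 2 := pow_le_pow_left₀ (by positivity) hk 2
  have hTpos : 0 < x ^ (2 * α - 1 - c - η) := Real.rpow_pos_of_pos hx _
  have hcpos : 0 < x ^ (-c) := Real.rpow_pos_of_pos hx _
  have ht0 : 0 < p * k / (2 * u) := by positivity
  have hTk : x ^ (2 * α - 1 - c - η) * L / 50 ≤ p * k / (2 * u) * k := by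
    calc x ^ (2 * α - 1 - c - η) * L / 50 = (x ^ (2 * α - 1 - c - η) / 10) * (L / 5) := by ring
      _ ≤ _ := mul_le_mul hT hk (by positivity) ht0.le
  have hB : 2 * (s * K) + 1 ≤ 5 * s * L := by
    have h1 : (s : ℝ) * K ≤ s * (2 * L) := mul_le_mul_of_nonneg_left hK hs0.le
    have h2 : 1 ≤ (s : ℝ) * L := by nlinarith
    nlinarith
  have hμpow : x ^ (-(2 * s * c)) / 800 ^ (2 * s) ≤ (k ^ 2 / (32 * u)) ^ (2 * s) := by
    have h1 : (x ^ (-c) / 800) ^ (2 * s) ≤ (k ^ 2 / (32 * u)) ^ (2 * s) :=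
      pow_le_pow_left₀ (by positivity) hμ _
    refine le_trans (le_of_eq ?_) h1
    rw [div_pow]
    congr 1
    rw [← Real.rpow_natCast, ← Real.rpow_mul hx.le]
    congr 1; push_cast; ring
  refine ⟨?_, ?_, ?_, ?_⟩
  · -- h1
    have g1 : 16 ≤ p * k / (2 * u) * k := by
      refine le_trans ?_ hTk
      have : x ^ (2 * α - 1 - c - η) * L = x ^ (α - c - η) := by
        rw [hL, ← Real.rpow_add hx]; congr 1; ring
      rw [this]; linarith
    have g2 : 32 * u ≤ k ^ 3 := by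
      have h1 : (L / 5) ^ 3 ≤ k ^ 3 := pow_le_pow_left₀ (by positivity) hk 3
      have h2 : L ^ 3 = x ^ (3 - 3 * α) := by
        rw [hL, ← Real.rpow_natCast, ← Real.rpow_mul hx.le]; congr 1; push_cast; ring
      have h3 : (L / 5) ^ 3 = x ^ (3 - 3 * α) / 125 := by rw [div_pow, h2]; norm_num
      rw [h3] at h1
      linarith
    have g3 : 8 * p ≤ p * k / (2 * u) * k ^ 2 / 2 := by
      have : p * k / (2 * u) * k ^ 2 / 2 = p * (k ^ 3 / (4 * u)) := by
        field_simp; ring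
      rw [this]
      have h4 : 8 ≤ k ^ 3 / (4 * u) := by
        rw [le_div_iff₀ (by positivity)]; linarith
      nlinarith
    have g4 : 8 * k ≤ p * k / (2 * u) * k ^ 2 / 2 := by
      have h5 := mul_le_mul_of_nonneg_right g1 hk0.le
      have : p * k / (2 * u) * k * k = p * k / (2 * u) * k ^ 2 := by ring
      rw [this] at h5
      linarith
    linarith
  · -- h2
    refine le_trans ?_ hTk
    have h1 : 3200 * L ≤ x ^ (2 * α - 1 - c - η) * L :=
      mul_le_mul_of_nonneg_right f3.le hL0.le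
    linarith
  · -- h3
    have e1 : x ^ (α - η - 2 * s * c) = x ^ (α - η) * x ^ (-(2 * s * c)) := by
      rw [← Real.rpow_add hx]; congr 1
    calc 4 * s * (2 * (s * K) + 1) ≤ 4 * s * (5 * s * L) := by gcongr
      _ = 20 * s ^ 2 * L := by ring
      _ < x ^ (α - η - 2 * s * c) / 800 ^ (2 * s) := by
          rw [lt_div_iff₀ (by positivity)]
          linarith
      _ = x ^ (α - η) * (x ^ (-(2 * s * c)) / 800 ^ (2 * s)) := by rw [e1]; ring
      _ ≤ p * (k ^ 2 / (32 * u)) ^ (2 * s) := by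
          gcongr
  · -- h4
    have hTpow : x ^ (s * (2 * α - 1 - c - η)) / 10 ^ s ≤ (p * k / (2 * u)) ^ s := by
      have h1 : (x ^ (2 * α - 1 - c - η) / 10) ^ s ≤ (p * k / (2 * u)) ^ s :=
        pow_le_pow_left₀ (by positivity) hT _
      refine le_trans (le_of_eq ?_) h1
      rw [div_pow]
      congr 1
      rw [← Real.rpow_natCast, ← Real.rpow_mul hx.le]
      congr 1; ring
    have e1 : x ^ (s * (2 * α - 1 - 3 * c - η)) =
        x ^ (-(2 * s * c)) * x ^ (s * (2 * α - 1 - c - η)) := by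
      rw [← Real.rpow_add hx]; congr 1; ring
    calc 2 * (s : ℝ) ^ s * (2 * (s * K) + 1) ≤ 2 * (s : ℝ) ^ s * (5 * s * L) := by gcongr
      _ = 10 * s ^ s * s * L := by ring
      _ < x ^ (s * (2 * α - 1 - 3 * c - η)) / (800 ^ (2 * s) * 10 ^ s) := by
          rw [lt_div_iff₀ (by positivity)]
          linarith
      _ = (x ^ (-(2 * s * c)) / 800 ^ (2 * s)) * (x ^ (s * (2 * α - 1 - c - η)) / 10 ^ s) := by
          rw [e1]; field_simp
      _ ≤ (k ^ 2 / (32 * u)) ^ (2 * s) * (p * k / (2 * u)) ^ s := by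
          gcongr

end Pool.Agent.Hhelper87.Cover
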