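import Mathlib
import Pool.Prelude.Def_F_b2ee6af0
import Pool.Agent.Hhelper87.Cover.Asymp

/-!
The covering bound beyond Cauchy-Schwarz for one residue class per prime in `[N^α, 2N^α)`.
-/

set_option autoImplicit false

namespace Pool.Agent.Hhelper87.Cover

open Finset Filter Topology N7c497599

/-- monotonicity of the sifted count in the range of primes -/
theorem sievedCard_mono (N : ℕ) (a : ℕ → ℤ) {lo hi lo' hi' : ℝ} (h1 : lo' ≤ lo) (h2 : hi ≤ hi') :
    sievedCard N a lo hi ≤ sievedCard N a lo' hi' := by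
  classical
  unfold sievedCard sievedSet
  refine Finset.card_le_card ?_
  intro n hn
  rw [Finset.mem_filter] at hn ⊢
  obtain ⟨hn1, p, hp, hlo, hhi, hd⟩ := hn
  exact ⟨hn1, p, hp, h1.trans hlo, hhi.trans_le h2, hd⟩

theorem cover_bound (α c : ℝ) (s : ℕ) (hs : 0 < s) (hα : 1 / 2 < α) (hα1 : α < 1) (hc : 0 < c)
    (i1 : 2 * s * c < 2 * α - 1) (i2 : 3 * c < 2 * α - 1 - (1 - α) / s) (i3 : c < 1 - α) :
    ∀ᶠ N : ℕ in atTop, ∀ a : ℕ → ℤ,
      (N : ℝ) ^ (2 - 2 * α + c) ≤ sievedCard N a ((N : ℝ) ^ α) (2 * (N : ℝ) ^ α) := by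
  classical
  obtain ⟨η, hη, j1, j2, j3⟩ : ∃ η : ℝ, 0 < η ∧ η + 2 * s * c < 2 * α - 1 ∧
      3 * c + η < 2 * α - 1 - (1 - α) / s ∧ c + η < 1 - α := by
    refine ⟨min (2 * α - 1 - 2 * s * c) (min (2 * α - 1 - (1 - α) / s - 3 * c) (1 - α - c)) / 2,
      ?_, ?_, ?_, ?_⟩
    · have : 0 < min (2 * α - 1 - 2 * s * c)
          (min (2 * α - 1 - (1 - α) / s - 3 * c) (1 - α - c)) :=
        lt_min (by linarith) (lt_min (by linarith) (by linarith))
      linarith
    all_goals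
      have m0 : 0 < min (2 * α - 1 - 2 * s * c)
          (min (2 * α - 1 - (1 - α) / s - 3 * c) (1 - α - c)) :=
        lt_min (by linarith) (lt_min (by linarith) (by linarith))
      have m1 := min_le_left (2 * α - 1 - 2 * s * c)
        (min (2 * α - 1 - (1 - α) / s - 3 * c) (1 - α - c))
      have m2 := min_le_right (2 * α - 1 - 2 * s * c)
        (min (2 * α - 1 - (1 - α) / s - 3 * c) (1 - α - c))
      have m3 := min_le_left (2 * α - 1 - (1 - α) / s - 3 * c) (1 - α - c)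
      have m4 := min_le_right (2 * α - 1 - (1 - α) / s - 3 * c) (1 - α - c)
      linarith
  have hα0 : 0 < α := by linarith
  have hNx : Tendsto (fun N : ℕ => (N : ℝ)) atTop atTop := tendsto_natCast_atTop_atTop
  have hprimes : ∀ᶠ x : ℝ in atTop, ∀ S : Finset ℕ,
      (∀ p : ℕ, p.Prime → x ^ α ≤ p → (p : ℝ) < 2 * x ^ α → p ∈ S) →
      (x ^ α) ^ (1 - η / α) ≤ S.card :=
    (tendsto_rpow_atTop hα0).eventually (primes_count (η / α) (by positivity))
  filter_upwards [hNx.eventually (main_ineq α c η s hs hα hc hη j1 j2 j3),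
    hNx.eventually hprimes, hNx.eventually (ev_pow 10 0 (1 - α) (by linarith)),
    hNx.eventually (ev_pow (100 * s * 4 ^ s) 0 α (by linarith)),
    hNx.eventually (ev_pow 100 0 α (by linarith)),
    hNx.eventually (ev_pow 1 1 (2 * α) (by linarith)),
    hNx.eventually_ge_atTop 1] with N hmain hpr g1 g2 g3 g4 hN1 a
  by_contra hcon
  push Not at hcon
  set x : ℝ := (N : ℝ) with hx
  have hx0 : 0 < x := by linarith
  rw [Real.rpow_zero, mul_one] at g1 g2 g3
  rw [Real.rpow_one, one_mul] at g4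
  set y : ℝ := x ^ α with hy
  set L : ℝ := x ^ (1 - α) with hL
  have hy0 : 0 < y := by linarith
  have hLy : L * y = x := by
    rw [hL, hy, ← Real.rpow_add hx0]; simp
  set Q : ℕ := ⌈y⌉₊ with hQ
  have hQge : y ≤ Q := Nat.le_ceil y
  have hQlt : (Q : ℝ) < y + 1 := Nat.ceil_lt_add_one hy0.le
  have hQ0 : (0 : ℝ) < Q := by linarith
  have hQpos : 0 < Q := by exact_mod_cast hQ0
  set P : Finset ℕ := (Finset.range (2 * Q)).filter
    (fun p : ℕ => p.Prime ∧ y ≤ (p : ℝ) ∧ (p : ℝ) < 2 * y) with hP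
  have hPmem : ∀ p : ℕ, p.Prime → y ≤ p → (p : ℝ) < 2 * y → p ∈ P := by
    intro p hp h1 h2
    rw [hP, Finset.mem_filter, Finset.mem_range]
    refine ⟨?_, hp, h1, h2⟩
    have : (p : ℝ) < ((2 * Q : ℕ) : ℝ) := by push_cast; linarith
    exact_mod_cast this
  have hPcard := hpr P hPmem
  have hPcard' : x ^ (α - η) ≤ P.card := by
    refine le_trans (le_of_eq ?_) hPcard
    rw [hy, ← Real.rpow_mul hx0.le]
    congr 1
    field_simp
  have hPprop : ∀ p ∈ P, p.Prime ∧ Q ≤ p ∧ p ≤ 2 * Q := by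
    intro p hp
    rw [hP, Finset.mem_filter, Finset.mem_range] at hp
    exact ⟨hp.2.1, Nat.ceil_le.2 hp.2.2.1, hp.1.le⟩
  have hPne : P.Nonempty := by
    rw [← Finset.card_pos]
    have : (0 : ℝ) < P.card := lt_of_lt_of_le (Real.rpow_pos_of_pos hx0 _) hPcard'
    exact_mod_cast this
  -- size of k and K
  have hkge : L / 5 ≤ ((N / (2 * Q) : ℕ) : ℝ) := by
    have h1 : (N : ℝ) / ((2 * Q : ℕ) : ℝ) < ((N / (2 * Q) : ℕ) : ℝ) + 1 := by
      rw [div_lt_iff₀ (by positivity)]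
      have := Nat.lt_div_mul_add (a := N) (b := 2 * Q) (by positivity)
      have h' : (N : ℝ) < ((N / (2 * Q) * (2 * Q) + 2 * Q : ℕ) : ℝ) := by exact_mod_cast this
      push_cast at h' ⊢
      linarith
    have h2 : L * (5 / 11) ≤ (N : ℝ) / ((2 * Q : ℕ) : ℝ) := by
      rw [le_div_iff₀ (by positivity)]
      push_cast
      have h3 : (Q : ℝ) ≤ 11 / 10 * y := by linarith
      have h4 : L * (5 / 11) * (2 * Q) ≤ L * (5 / 11) * (2 * (11 / 10 * y)) := by
        gcongr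
      have h5 : L * (5 / 11) * (2 * (11 / 10 * y)) = x := by
        rw [← hLy]; ring
      rw [h5] at h4
      exact h4
    linarith
  have hkpos : 0 < N / (2 * Q) := by
    have : (0 : ℝ) < ((N / (2 * Q) : ℕ) : ℝ) := lt_of_lt_of_le (by linarith) hkge
    exact_mod_cast this
  have hKle : ((N / Q + 1 : ℕ) : ℝ) ≤ 2 * L := by
    have h1 : ((N / Q : ℕ) : ℝ) ≤ (N : ℝ) / Q := Nat.cast_div_le
    have h2 : (N : ℝ) / Q ≤ L := by
      rw [div_le_iff₀ hQ0]
      calc (N : ℝ) = L * y := hLy.symm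
        _ ≤ L * Q := by gcongr
    push_cast
    linarith
  obtain ⟨k1, k2, k3, k4⟩ := hmain P.card ((N / (2 * Q) : ℕ) : ℝ) ((N / Q + 1 : ℕ) : ℝ)
    hPcard' hkge (Nat.cast_nonneg _) hKle
  have hu0 : 0 < x ^ (2 - 2 * α + c) := Real.rpow_pos_of_pos hx0 _
  -- the cover
  have hcover : (((Finset.Icc 1 N).filter (fun n : ℕ => ∃ p ∈ P, Inc a n p)).card : ℝ) ≤
      x ^ (2 - 2 * α + c) := by
    refine le_trans ?_ hcon.le
    unfold sievedCard sievedSet
    have : ((Finset.Icc 1 N).filter (fun n : ℕ => ∃ p ∈ P, Inc a n p)).card ≤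
        ((Finset.Icc (1 : ℤ) (N : ℤ)).filter fun n => ∃ p, Nat.Prime p ∧
          y ≤ (p : ℝ) ∧ (p : ℝ) < 2 * y ∧ (p : ℤ) ∣ ((n : ℤ) - a p)).card := by
      refine Finset.card_le_card_of_injOn (fun n : ℕ => (n : ℤ)) ?_
        (fun m _ n _ h => Int.natCast_inj.1 h)
      intro n hn
      rw [Finset.mem_coe, Finset.mem_filter, Finset.mem_Icc] at hn
      obtain ⟨⟨h1, h2⟩, p, hpP, hinc⟩ := hn
      rw [hP, Finset.mem_filter] at hpP
      rw [Finset.mem_coe, Finset.mem_filter, Finset.mem_Icc]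
      have h1' : (1 : ℤ) ≤ (n : ℤ) := by exact_mod_cast h1
      have h2' : (n : ℤ) ≤ (N : ℤ) := by exact_mod_cast h2
      exact ⟨⟨h1', h2'⟩, p, hpP.2.1, hpP.2.2.1, hpP.2.2.2, hinc⟩
    exact_mod_cast this
  refine finite_core N Q s hs ?_ ?_ P hPprop hPne a hkpos (x ^ (2 - 2 * α + c)) hu0 ?_ _ _ rfl rfl
    k1 k2 k3 k4
  · have h1 : x < (Q : ℝ) ^ 2 := by
      refine lt_of_lt_of_le g4 ?_
      calc x ^ (2 * α) = y ^ 2 := by
            rw [hy, ← Real.rpow_natCast, ← Real.rpow_mul hx0.le]; congr 1; push_cast; ring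
        _ ≤ (Q : ℝ) ^ 2 := pow_le_pow_left₀ hy0.le hQge 2
    rw [hx] at h1
    exact_mod_cast h1
  · have h1 : (s : ℝ) * 4 ^ s < Q := by
      have : (0 : ℝ) ≤ (s : ℝ) * 4 ^ s := by positivity
      have : 100 * s * 4 ^ s = 100 * ((s : ℝ) * 4 ^ s) := by ring
      linarith
    exact_mod_cast h1
  · convert hcover

end Pool.Agent.Hhelper87.Cover
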